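import Mathlib

set_option autoImplicit false

/-!
Closed commensurated subgroups of locally compact groups almost commute with compacts.

Idea: for `m` let `E m` be the set of `g` for which `Λ ∩ g⁻¹ Λ g` has more than `m` cosets in `Λ`.
It is open, since `Λ` is closed. By Baire, for some `m` the complement of `E m` has interior; for
the least such `m` there is an open set on which the number of cosets is constant, and on a smaller
open set one finite set of representatives serves for all `g` at once. Finitely many translates of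
this open set cover a compact set.
-/

open scoped Pointwise Topology

namespace Pool.Agent.Results.MP_5bfb0a_al.CommensuratedCommutes

/-- A subgroup `Λ` of `Γ` is commensurated if for every `g` the intersection `Λ ∩ g Λ g⁻¹` has
finite index in `Λ`. (`H.relIndex K` is the index of `H ∩ K` in `K`, and it is `0` when that index
is infinite.) -/
def Commensurated {Γ : Type*} [Group Γ] (Λ : Subgroup Γ) : Prop :=
  ∀ g : Γ, (Λ.map (MulAut.conj g).toMonoidHom).relIndex Λ ≠ 0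

/-- `Λ` almost commutes with compacts if for every compact `C` there is a compact `C'` with
`C Λ ⊆ Λ C'` and `Λ C ⊆ C' Λ`. -/
def AlmostCommutesWithCompacts {Γ : Type*} [Group Γ] [TopologicalSpace Γ] (Λ : Subgroup Γ) :
    Prop :=
  ∀ C : Set Γ, IsCompact C → ∃ C' : Set Γ, IsCompact C' ∧
    C * (Λ : Set Γ) ⊆ (Λ : Set Γ) * C' ∧ (Λ : Set Γ) * C ⊆ C' * (Λ : Set Γ)

section

variable {Γ : Type*} [Group Γ] (Λ : Subgroup Γ)

/-- `g ∈ E Λ m` if there are `m + 1` elements of `Λ` in distinct cosets of `Λ ∩ g⁻¹ Λ g`. -/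
def E (m : ℕ) : Set Γ :=
  {g | ∃ l : Fin (m + 1) → Γ, (∀ j, l j ∈ Λ) ∧ ∀ j k, j ≠ k → g * l j * (l k)⁻¹ * g⁻¹ ∉ Λ}

lemma E_zero : E Λ 0 = Set.univ := by
  ext g
  simp only [Set.mem_univ, iff_true]
  exact ⟨fun _ => 1, fun _ => Λ.one_mem, fun j k h => absurd (Fin.ext (by omega)) h⟩

lemma exists_notMem_E (hcomm : Commensurated Λ) (g : Γ) : ∃ m, g ∉ E Λ m := by
  by_contra hcon
  push Not at hcon
  have h1 := hcomm g⁻¹
  set H : Subgroup Γ := Λ.map (MulAut.conj g⁻¹).toMonoidHom with hH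
  have hfin : Finite (Λ ⧸ (H.subgroupOf Λ)) := by
    have : (H.subgroupOf Λ).FiniteIndex := ⟨h1⟩
    exact Subgroup.finite_quotient_of_finiteIndex
  obtain ⟨l, hl, hne⟩ := hcon (Nat.card (Λ ⧸ (H.subgroupOf Λ)))
  let f : Fin (Nat.card (Λ ⧸ (H.subgroupOf Λ)) + 1) → (Λ ⧸ (H.subgroupOf Λ)) :=
    fun j => QuotientGroup.mk (⟨(l j)⁻¹, Λ.inv_mem (hl j)⟩ : Λ)
  have hinj : Function.Injective f := by
    intro j k hjk
    by_contra hjk'
    apply hne j k hjk'
    have h2 := QuotientGroup.eq.mp hjk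
    rw [Subgroup.mem_subgroupOf] at h2
    obtain ⟨x, hx, hxe⟩ := h2
    have h3 : g⁻¹ * x * g = l j * (l k)⁻¹ := by
      simpa [MulAut.conj_apply] using hxe
    have h4 : x = g * l j * (l k)⁻¹ * g⁻¹ := by
      have : x = g * (g⁻¹ * x * g) * g⁻¹ := by group
      rw [this, h3]; group
    rw [← h4]; exact hx
  have hcard := Nat.card_le_card_of_injective f hinj
  simp at hcard

/-- If `g` has `m + 1` coset representatives `l` but not `m + 2`, then `g Λ ⊆ ⋃ Λ g (l j)`. -/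
lemma cover_of {m : ℕ} {g : Γ} (hg : g ∉ E Λ (m + 1)) {l : Fin (m + 1) → Γ} (hl : ∀ j, l j ∈ Λ)
    (hne : ∀ j k, j ≠ k → g * l j * (l k)⁻¹ * g⁻¹ ∉ Λ) {x : Γ} (hx : x ∈ Λ) :
    ∃ j, ∃ y ∈ Λ, g * x = y * (g * l j) := by
  by_contra hcon
  push Not at hcon
  apply hg
  have hcon' : ∀ j, g * x * (l j)⁻¹ * g⁻¹ ∉ Λ := by
    intro j hj
    exact hcon j _ hj (by group)
  refine ⟨Fin.cons x l, ?_, ?_⟩
  · intro j
    refine Fin.cases ?_ (fun i => ?_) j
    · simpa using hx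
    · simpa using hl i
  · intro j k
    refine Fin.cases ?_ (fun i => ?_) j
    · refine Fin.cases ?_ (fun i' => ?_) k
      · intro h; exact absurd rfl h
      · intro _
        simpa using hcon' i'
    · refine Fin.cases ?_ (fun i' => ?_) k
      · intro _ hmem
        apply hcon' i
        have := Λ.inv_mem hmem
        simpa [mul_assoc] using this
      · intro h
        have h' : i ≠ i' := fun e => h (by rw [e])
        simpa using hne i i' h'

lemma exists_finite (hcomm : Commensurated Λ) (g : Γ) :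
    ∃ F : Set Γ, F.Finite ∧ ∀ x ∈ Λ, ∃ y ∈ Λ, ∃ z ∈ F, g * x = y * z := by
  classical
  have hex := exists_notMem_E Λ hcomm g
  have h0 : Nat.find hex ≠ 0 := by
    intro h
    have := Nat.find_spec hex
    rw [h, E_zero] at this
    exact this (Set.mem_univ _)
  obtain ⟨m, hm⟩ := Nat.exists_eq_succ_of_ne_zero h0
  have h1 : g ∉ E Λ (m + 1) := by
    have := Nat.find_spec hex
    rwa [hm] at this
  have h2 : g ∈ E Λ m := by
    by_contra h
    have := Nat.find_min' hex h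
    omega
  obtain ⟨l, hl, hne⟩ := h2
  refine ⟨Set.range fun j => g * l j, Set.finite_range _, fun x hx => ?_⟩
  obtain ⟨j, y, hy, hxy⟩ := cover_of Λ h1 hl hne hx
  exact ⟨y, hy, g * l j, ⟨j, rfl⟩, hxy⟩

end

section

variable {Γ : Type*} [Group Γ] [TopologicalSpace Γ] [IsTopologicalGroup Γ]
  (Λ : Subgroup Γ)

lemma isOpen_reps (hΛ : IsClosed (Λ : Set Γ)) {m : ℕ} (l : Fin (m + 1) → Γ) :
    IsOpen {g : Γ | ∀ j k, j ≠ k → g * l j * (l k)⁻¹ * g⁻¹ ∉ Λ} := by
  have : {g : Γ | ∀ j k, j ≠ k → g * l j * (l k)⁻¹ * g⁻¹ ∉ Λ} =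
      ⋂ j, ⋂ k, ⋂ (_ : j ≠ k), (fun g => g * l j * (l k)⁻¹ * g⁻¹) ⁻¹' (Λ : Set Γ)ᶜ := by
    ext g; simp
  rw [this]
  refine isOpen_iInter_of_finite fun j => isOpen_iInter_of_finite fun k =>
    isOpen_iInter_of_finite fun _ => hΛ.isOpen_compl.preimage (by fun_prop)

lemma isOpen_E (hΛ : IsClosed (Λ : Set Γ)) (m : ℕ) : IsOpen (E Λ m) := by
  have : E Λ m = ⋃ (l : Fin (m + 1) → Γ) (_ : ∀ j, l j ∈ Λ),
      {g : Γ | ∀ j k, j ≠ k → g * l j * (l k)⁻¹ * g⁻¹ ∉ Λ} := by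
    ext g; simp [E]
  rw [this]
  exact isOpen_iUnion fun l => isOpen_iUnion fun _ => isOpen_reps Λ hΛ l

lemma exists_open [LocallyCompactSpace Γ] [T2Space Γ] (hΛ : IsClosed (Λ : Set Γ))
    (hcomm : Commensurated Λ) :
    ∃ (W : Set Γ) (g₀ : Γ) (m : ℕ) (l : Fin (m + 1) → Γ), IsOpen W ∧ g₀ ∈ W ∧ (∀ j, l j ∈ Λ) ∧
      ∀ g ∈ W, ∀ x ∈ Λ, ∃ j, ∃ y ∈ Λ, g * x = y * (g * l j) := by
  classical
  have hex : ∃ m, (interior (E Λ m)ᶜ).Nonempty := by
    apply nonempty_interior_of_iUnion_of_closed (fun m => (isOpen_E Λ hΛ m).isClosed_compl)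
    ext g
    simp only [Set.mem_iUnion, Set.mem_compl_iff, Set.mem_univ, iff_true]
    exact exists_notMem_E Λ hcomm g
  have h0 : Nat.find hex ≠ 0 := by
    intro h
    have := Nat.find_spec hex
    rw [h, E_zero] at this
    simp at this
  obtain ⟨m, hm⟩ := Nat.exists_eq_succ_of_ne_zero h0
  have h1 : (interior (E Λ (m + 1))ᶜ).Nonempty := by
    have := Nat.find_spec hex
    rwa [hm] at this
  have h2 : ¬ (interior (E Λ m)ᶜ).Nonempty := by
    intro h
    have := Nat.find_min' hex h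
    omega
  have h3 : ∃ g₀ ∈ interior (E Λ (m + 1))ᶜ, g₀ ∈ E Λ m := by
    by_contra hcon
    push Not at hcon
    apply h2
    exact h1.mono (interior_maximal (fun g hg => hcon g hg) isOpen_interior)
  obtain ⟨g₀, hg₀, l, hl, hne⟩ := h3
  refine ⟨interior (E Λ (m + 1))ᶜ ∩ {g : Γ | ∀ j k, j ≠ k → g * l j * (l k)⁻¹ * g⁻¹ ∉ Λ}, g₀, m, l,
    isOpen_interior.inter (isOpen_reps Λ hΛ l), ⟨hg₀, hne⟩, hl, ?_⟩
  rintro g ⟨hg1, hg2⟩ x hx
  exact cover_of Λ (interior_subset hg1) hl hg2 hx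

lemma left_inclusion [LocallyCompactSpace Γ] [T2Space Γ] (hΛ : IsClosed (Λ : Set Γ))
    (hcomm : Commensurated Λ) (C : Set Γ) (hC : IsCompact C) :
    ∃ C' : Set Γ, IsCompact C' ∧ C * (Λ : Set Γ) ⊆ (Λ : Set Γ) * C' := by
  classical
  obtain ⟨W, g₀, m, l, hW, hg₀, hl, hcov⟩ := exists_open Λ hΛ hcomm
  obtain ⟨K, hK, hK1, hK2⟩ := exists_compact_subset hW hg₀
  -- cover `C` by finitely many translates of `interior K`
  have hcover : ∀ c ∈ C, (c * g₀⁻¹) • interior K ∈ 𝓝 c := by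
    intro c _
    have : IsOpen ((c * g₀⁻¹) • interior K) := isOpen_interior.smul _
    refine this.mem_nhds ?_
    exact ⟨g₀, hK1, by simp⟩
  obtain ⟨t, ht⟩ := hC.elim_nhds_subcover' (fun c _ => (c * g₀⁻¹) • interior K) hcover
  choose! F hF hF' using exists_finite Λ hcomm
  let K' : Set Γ := ⋃ j, K * {l j}
  have hK' : IsCompact K' := isCompact_iUnion fun j => hK.mul isCompact_singleton
  refine ⟨⋃ c ∈ t, F ((c : Γ) * g₀⁻¹) * K', ?_, ?_⟩
  · exact t.isCompact_biUnion fun c _ => (hF _).isCompact.mul hK'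
  · rintro _ ⟨c, hc, x, hx, rfl⟩
    obtain ⟨c₀, hc₀, hmem⟩ := Set.mem_iUnion₂.mp (ht hc)
    obtain ⟨k, hk, hkc⟩ := hmem
    obtain ⟨j, y, hy, hxy⟩ := hcov k (hK2 (interior_subset hk)) x hx
    obtain ⟨y', hy', z, hz, hzy⟩ := hF' ((c₀ : Γ) * g₀⁻¹) y hy
    refine ⟨y', hy', z * (k * l j), ?_, ?_⟩
    · refine Set.mem_biUnion hc₀ ⟨z, hz, k * l j, ?_, rfl⟩
      exact Set.mem_iUnion.mpr ⟨j, k, interior_subset hk, l j, rfl, rfl⟩
    · have : c = (c₀ : Γ) * g₀⁻¹ * k := by rw [← hkc]; rfl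
      change y' * (z * (k * l j)) = c * x
      calc y' * (z * (k * l j)) = (y' * z) * (k * l j) := by group
        _ = (c₀ : Γ) * g₀⁻¹ * (y * (k * l j)) := by rw [← hzy]; group
        _ = (c₀ : Γ) * g₀⁻¹ * (k * x) := by rw [← hxy]
        _ = c * x := by rw [this]; group

end

/-- In a locally compact Hausdorff group every closed commensurated subgroup almost commutes with
compacts. -/
theorem result {Γ : Type*} [Group Γ] [TopologicalSpace Γ] [IsTopologicalGroup Γ]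
    [LocallyCompactSpace Γ] [T2Space Γ] (Λ : Subgroup Γ) (hΛ : IsClosed (Λ : Set Γ))
    (hcomm : Commensurated Λ) : AlmostCommutesWithCompacts Λ := by
  intro C hC
  obtain ⟨C₁, hC₁, h₁⟩ := left_inclusion Λ hΛ hcomm C hC
  obtain ⟨C₂, hC₂, h₂⟩ := left_inclusion Λ hΛ hcomm C⁻¹ hC.inv
  refine ⟨C₁ ∪ C₂⁻¹, hC₁.union hC₂.inv, ?_, ?_⟩
  · exact h₁.trans (Set.mul_subset_mul_left Set.subset_union_left)
  · have h3 : (Λ : Set Γ) * C ⊆ C₂⁻¹ * (Λ : Set Γ) := by
      have := Set.inv_subset_inv.mpr h₂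
      simpa using this
    exact h3.trans (Set.mul_subset_mul_right Set.subset_union_right)

end Pool.Agent.Results.MP_5bfb0a_al.CommensuratedCommutes
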